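import Pool.Agent.H343.QF.StS

set_option autoImplicit false
set_option linter.unusedSectionVars false

/-! # MP_9a852a_al, part S2 : the form of the relators -/

namespace Pool.Agent.H658.QF

open Pool.Agent.TH68 Pool.Agent.Helper97.Hyp Pool.Agent.H343.AN Pool.Agent.H343.QF

section

variable {Γ : Type} [Group Γ] {W : WNorm Γ} {a b : Γ}

theorem len_pow (W : WNorm Γ) (c : Γ) (n : ℕ) : W.ℓ (c ^ n) ≤ n * W.ℓ c := by
  induction n with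
  | zero => rw [pow_zero, W.one', zero_mul]
  | succ n ih =>
    rw [pow_succ]
    calc W.ℓ (c ^ n * c) ≤ W.ℓ (c ^ n) + W.ℓ c := W.mul_le _ _
      _ ≤ n * W.ℓ c + W.ℓ c := Nat.add_le_add_right ih _
      _ = (n + 1) * W.ℓ c := by ring

theorem len_a (ha : ∀ k : ℤ, (W.ℓ (a ^ k) : ℤ) = |k|) (n : ℕ) : W.ℓ (a ^ n) = n := by
  have h := ha (n : ℤ)
  rw [zpow_natCast, Nat.abs_cast] at h
  exact_mod_cast h

theorem len_a1 (ha : ∀ k : ℤ, (W.ℓ (a ^ k) : ℤ) = |k|) : W.ℓ a = 1 := by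
  have h := len_a ha 1
  rwa [pow_one] at h

theorem len_blk (ha : ∀ k : ℤ, (W.ℓ (a ^ k) : ℤ) = |k|) (c : Γ) (hc : W.ℓ c ≤ 1) (k : ℕ) :
    ∀ n : ℕ, W.ℓ (blk c (a ^ k) n) ≤ n * (n * k + 1)
  | 0 => by
    show W.ℓ (1 : Γ) ≤ _
    rw [W.one', zero_mul]
  | n + 1 => by
    show W.ℓ (blk c (a ^ k) n * ((a ^ k) ^ (n + 1) * c)) ≤ _
    have h1 := W.mul_le (blk c (a ^ k) n) ((a ^ k) ^ (n + 1) * c)
    have h2 := W.mul_le ((a ^ k) ^ (n + 1)) c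
    have h3 : W.ℓ ((a ^ k) ^ (n + 1)) = k * (n + 1) := by
      rw [← pow_mul, len_a ha]
    have h4 := len_blk ha c hc k n
    have h5 : n * (n * k + 1) + (k * (n + 1) + 1) ≤ (n + 1) * ((n + 1) * k + 1) := by
      have h6 : (n + 1) * ((n + 1) * k + 1) = n * (n * k + 1) + (k * (n + 1) + 1) + n * k := by
        ring
      rw [h6]
      exact Nat.le_add_right _ _
    omega

theorem len_ltr (ha : W.ℓ a = 1) (hb : W.ℓ b = 1) (k : ℕ) : W.ℓ (ltr a b k) = 1 := by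
  unfold ltr
  split_ifs
  · exact ha
  · rw [W.inv']; exact ha
  · exact hb
  · rw [W.inv']; exact hb

end

theorem form : S_form := by
  intro Γ _ W a b B ee hB ha hb m
  have ha1 := len_a1 ha
  have hm : (0 : ℝ) ≤ m := Nat.cast_nonneg m
  have hBr : (1 : ℝ) ≤ B := by exact_mod_cast hB
  have hB2 : (1 : ℝ) ≤ (B : ℝ) ^ 2 := one_le_pow₀ hBr
  by_cases hpar : m % 2 = 0
  · refine ⟨2, a ^ (m / 2) * b ^ 3 * a ^ ((m / 2) ^ 2) * b ^ 3,
      a ^ (m / 2) * b ^ 3 * a ^ ((m / 2) ^ 2) * b ^ 3, Or.inr rfl, fun _ => hpar, ?_, ?_⟩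
    · unfold rel
      rw [if_pos hpar]
      unfold Sd
      group
    · have h1 := W.mul_le (a ^ (m / 2) * b ^ 3 * a ^ ((m / 2) ^ 2)) (b ^ 3)
      have h2 := W.mul_le (a ^ (m / 2) * b ^ 3) (a ^ ((m / 2) ^ 2))
      have h3 := W.mul_le (a ^ (m / 2)) (b ^ 3)
      have h4 := len_pow W b 3
      rw [hb] at h4
      rw [len_a ha] at h2 h3
      have h5 : W.ℓ (a ^ (m / 2) * b ^ 3 * a ^ ((m / 2) ^ 2) * b ^ 3) ≤
          m / 2 + (m / 2) ^ 2 + 6 := by omega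
      have h6 : m / 2 ≤ m := Nat.div_le_self m 2
      have h7 : (m / 2) ^ 2 ≤ m ^ 2 := Nat.pow_le_pow_left h6 2
      have h8 : W.ℓ (a ^ (m / 2) * b ^ 3 * a ^ ((m / 2) ^ 2) * b ^ 3) ≤ m + m ^ 2 + 6 := by
        omega
      have h9 : (W.ℓ (a ^ (m / 2) * b ^ 3 * a ^ ((m / 2) ^ 2) * b ^ 3) : ℝ) ≤
          m + (m : ℝ) ^ 2 + 6 := by exact_mod_cast h8
      have h10 : m + (m : ℝ) ^ 2 + 6 ≤ 10 * ((m : ℝ) + 2) ^ 2 := by nlinarith
      have h11 : 10 * ((m : ℝ) + 2) ^ 2 ≤ 10 * (B : ℝ) ^ 2 * (m + 2) ^ 2 := by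
        have h12 : 1 * ((m : ℝ) + 2) ^ 2 ≤ (B : ℝ) ^ 2 * (m + 2) ^ 2 :=
          mul_le_mul_of_nonneg_right hB2 (sq_nonneg _)
        linarith
      linarith
  · refine ⟨1, (Wd B a b (m / 2 / 4) * ltr a b (m / 2))⁻¹, 1, Or.inl rfl,
      fun h => absurd h (by norm_num), ?_, ?_⟩
    · unfold rel
      rw [if_neg hpar, pow_one, one_mul, inv_one, mul_one]
      rfl
    · rw [W.inv']
      have h1 := W.mul_le (Wd B a b (m / 2 / 4)) (ltr a b (m / 2))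
      rw [len_ltr ha1 hb] at h1
      have h2 : W.ℓ (Wd B a b (m / 2 / 4)) ≤ B * (B * (m / 2 / 4) + 1) :=
        len_blk ha b hb.le (m / 2 / 4) B
      have h3 : m / 2 / 4 ≤ m := (Nat.div_le_self _ 4).trans (Nat.div_le_self m 2)
      have h4 : B * (B * (m / 2 / 4) + 1) ≤ B * (B * m + 1) :=
        Nat.mul_le_mul_left B (Nat.add_le_add_right (Nat.mul_le_mul_left B h3) 1)
      have h5 : W.ℓ (Wd B a b (m / 2 / 4) * ltr a b (m / 2)) ≤ B * (B * m + 1) + 1 := by omega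
      have h6 : (W.ℓ (Wd B a b (m / 2 / 4) * ltr a b (m / 2)) : ℝ) ≤
          B * (B * m + 1) + 1 := by exact_mod_cast h5
      have h7 : (B : ℝ) ≤ (B : ℝ) ^ 2 := by nlinarith
      have h8 : (B : ℝ) * (B * m + 1) + 1 ≤ (B : ℝ) ^ 2 * (m + 2) := by
        have : (B : ℝ) * (B * m + 1) + 1 = (B : ℝ) ^ 2 * m + B + 1 := by ring
        rw [this]
        linarith
      have h9 : (m : ℝ) + 2 ≤ 10 * ((m : ℝ) + 2) ^ 2 := by nlinarith
      have h10 : (B : ℝ) ^ 2 * (m + 2) ≤ (B : ℝ) ^ 2 * (10 * ((m : ℝ) + 2) ^ 2) :=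
        mul_le_mul_of_nonneg_left h9 (sq_nonneg _)
      have h11 : (B : ℝ) ^ 2 * (10 * ((m : ℝ) + 2) ^ 2) = 10 * (B : ℝ) ^ 2 * (m + 2) ^ 2 := by
        ring
      linarith

end Pool.Agent.H658.QF
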